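import Pool.Agent.TH280.DH.Stm

set_option autoImplicit false

namespace Pool.Agent.TH280.DH.Fin

open Complex Polynomial Filter Topology Pool.Agent.TH280.DH

lemma cz_zero : cz 0 = 0 := by simp [cz]

/-- `(a + b)^p ≤ (1-θ)^(1-p) a^p + θ^(1-p) b^p` -/
lemma add_rpow {p a b θ : ℝ} (hp : 1 < p) (ha : 0 ≤ a) (hb : 0 ≤ b) (h0 : 0 < θ) (h1 : θ < 1) :
    (a + b) ^ p ≤ (1 - θ) ^ (1 - p) * a ^ p + θ ^ (1 - p) * b ^ p := by
  have hθ : 0 < 1 - θ := by linarith
  have hc := (convexOn_rpow hp.le).2 (x := a / (1 - θ)) (y := b / θ)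
    (by simp only [Set.mem_Ici]; positivity) (by simp only [Set.mem_Ici]; positivity)
    hθ.le h0.le (by ring)
  simp only [smul_eq_mul] at hc
  have e1 : (1 - θ) * (a / (1 - θ)) = a := by field_simp
  have e2 : θ * (b / θ) = b := by field_simp
  rw [e1, e2] at hc
  refine hc.trans (le_of_eq ?_)
  rw [Real.div_rpow ha hθ.le, Real.div_rpow hb h0.le, Real.rpow_sub hθ, Real.rpow_sub h0,
    Real.rpow_one, Real.rpow_one]
  ring

lemma av_mono {f g : ℂ → ℝ} (hf : Continuous f) (hg : Continuous g)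
    (h : ∀ z : ℂ, ‖z‖ = 1 → f z ≤ g z) : av f ≤ av g := by
  unfold av
  apply Real.circleAverage_mono
  · exact hf.continuousOn.circleIntegrable (by norm_num)
  · exact hg.continuousOn.circleIntegrable (by norm_num)
  · intro z hz
    exact h z (by simpa using hz)

lemma av_lin {f : ℂ → ℝ} (hf : Continuous f) (a b : ℝ) :
    av (fun z => a * f z + b) = a * av f + b := by
  unfold av
  have h1 : CircleIntegrable f 0 1 := hf.continuousOn.circleIntegrable (by norm_num)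
  have e : (fun z => a * f z + b) = (a • f) + fun _ => b := by
    funext z; simp
  rw [e, Real.circleAverage_add (h1.const_smul) (circleIntegrable_const b 0 1),
    Real.circleAverage_smul, Real.circleAverage_const]
  simp

/-- the components of `u` -/
noncomputable def PU {ι : Type} (F : ℂ[X]) (W : ι → ℂ[X]) : Option (ι ⊕ ι) → ℂ[X]
  | none => F
  | some (Sum.inl i) => W i
  | some (Sum.inr i) => C (-Complex.I) * W i

/-- the components of `v` -/
noncomputable def PV {ι : Type} (G : ℂ[X]) : Option (ι ⊕ ι) → ℂ[X]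
  | none => G
  | some _ => 0

variable {ι : Type} [Fintype ι]

lemma sum_PU (F : ℂ[X]) (W : ι → ℂ[X]) (z : ℂ) :
    ∑ i, ((PU F W i).eval z).re ^ 2 = (F.eval z).re ^ 2 + ∑ i, ‖(W i).eval z‖ ^ 2 := by
  rw [Fintype.sum_option, Fintype.sum_sum_type, ← Finset.sum_add_distrib]
  simp only [PU]
  congr 1
  refine Finset.sum_congr rfl fun i _ => ?_
  rw [← Complex.normSq_eq_norm_sq, Complex.normSq_apply]
  simp only [eval_mul, eval_C]
  simp
  ring

lemma sum_PV (G : ℂ[X]) (z : ℂ) :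
    ∑ i, ((PV (ι := ι) G i).eval z).re ^ 2 = (G.eval z).re ^ 2 := by
  rw [Fintype.sum_option]
  simp [PV]

lemma sum_PU' (F : ℂ[X]) (W : ι → ℂ[X]) (z : ℂ) :
    ‖(derivative F).eval z‖ ^ 2 + ∑ i, ‖(derivative (W i)).eval z‖ ^ 2
      ≤ ∑ i, ‖(derivative (PU F W i)).eval z‖ ^ 2 := by
  rw [Fintype.sum_option, Fintype.sum_sum_type]
  simp only [PU]
  have : 0 ≤ ∑ x, ‖(derivative (C (-Complex.I) * W x)).eval z‖ ^ 2 := by positivity
  linarith

lemma sum_PV' (G : ℂ[X]) (z : ℂ) :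
    ∑ i, ‖(derivative (PV (ι := ι) G i)).eval z‖ ^ 2 = ‖(derivative G).eval z‖ ^ 2 := by
  rw [Fintype.sum_option]
  simp [PV]

lemma norm_vec {κ : Type} [Fintype κ] (P : κ → ℂ[X]) (x : E2) :
    ‖vec P x‖ = Real.sqrt (∑ i, ((P i).eval (cz x)).re ^ 2) := by
  rw [EuclideanSpace.norm_eq]
  simp [vec]

theorem main (hMaj : S_MAJ) (hMin : S_MIN) (hH : S_HARM) {p c x y A B : ℝ} (hp : 1 < p)
    (hc : 0 ≤ c) (hG : Good p x y A B) (hxy : |y| ≤ |x|) (hAB : c ^ p * A < B) :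
      ∃ (n : ℕ) (H : Type) (_ : NormedAddCommGroup H) (_ : InnerProductSpace ℝ H)
        (_ : CompleteSpace H)
        (D : Set (EuclideanSpace ℝ (Fin n))) (x₀ : EuclideanSpace ℝ (Fin n))
        (u v : EuclideanSpace ℝ (Fin n) → H),
        IsOpen D ∧ IsConnected D ∧ x₀ ∈ D ∧
        InnerProductSpace.HarmonicOnNhd u D ∧ InnerProductSpace.HarmonicOnNhd v D ∧
        (∀ x ∈ D,
          ∑ i : Fin n, ‖fderiv ℝ v x (EuclideanSpace.single i (1 : ℝ))‖ ^ 2 ≤
            ∑ i : Fin n, ‖fderiv ℝ u x (EuclideanSpace.single i (1 : ℝ))‖ ^ 2) ∧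
        ‖v x₀‖ ≤ ‖u x₀‖ ∧
        ∃ h : EuclideanSpace ℝ (Fin n) → ℝ,
          InnerProductSpace.HarmonicOnNhd h D ∧ (∀ x ∈ D, ‖u x‖ ^ p ≤ h x) ∧
          ∃ ε : ℝ, 0 < ε ∧
            ∀ g : EuclideanSpace ℝ (Fin n) → ℝ,
              InnerProductSpace.HarmonicOnNhd g D →
              (∀ x ∈ D, ‖v x‖ ^ p ≤ g x) →
              c ^ p * h x₀ + ε ≤ g x₀ := by
  have hcp : 0 ≤ c ^ p := Real.rpow_nonneg hc p
  -- the parameters
  obtain ⟨θ, hθ0, hθ1, hθ⟩ : ∃ θ : ℝ, 0 < θ ∧ θ < 1 ∧ c ^ p * ((1 - θ) ^ (1 - p) * A) < B := by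
    have hcont : Tendsto (fun θ : ℝ => c ^ p * ((1 - θ) ^ (1 - p) * A)) (𝓝[>] 0)
        (𝓝 (c ^ p * ((1 - 0) ^ (1 - p) * A))) := by
      apply Tendsto.mono_left _ nhdsWithin_le_nhds
      apply ContinuousAt.tendsto (f := fun θ : ℝ => c ^ p * ((1 - θ) ^ (1 - p) * A))
      refine ContinuousAt.mul continuousAt_const (ContinuousAt.mul ?_ continuousAt_const)
      exact ContinuousAt.rpow_const (continuousAt_const.sub continuousAt_id)
        (Or.inl (by norm_num))
    have hlim : c ^ p * ((1 - 0) ^ (1 - p) * A) < B := by simpa using hAB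
    have h1 := hcont.eventually (gt_mem_nhds hlim)
    have h2 : ∀ᶠ θ : ℝ in 𝓝[>] 0, θ < 1 :=
      (nhdsWithin_le_nhds (s := Set.Ioi (0:ℝ))) (gt_mem_nhds zero_lt_one)
    have h3 : ∀ᶠ θ : ℝ in 𝓝[>] 0, 0 < θ := eventually_mem_nhdsWithin
    obtain ⟨θ, a, b, d⟩ := (h1.and (h2.and h3)).exists
    exact ⟨θ, d, b, a⟩
  obtain ⟨η, hη0, hη⟩ : ∃ η : ℝ, 0 < η ∧
      c ^ p * ((1 - θ) ^ (1 - p) * (A + η) + θ ^ (1 - p) * η ^ p) < B - η := by
    have hcont : Tendsto (fun η : ℝ => c ^ p * ((1 - θ) ^ (1 - p) * (A + η)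
        + θ ^ (1 - p) * η ^ p) + η) (𝓝[>] 0)
        (𝓝 (c ^ p * ((1 - θ) ^ (1 - p) * (A + 0) + θ ^ (1 - p) * 0 ^ p) + 0)) := by
      apply Tendsto.mono_left _ nhdsWithin_le_nhds
      apply ContinuousAt.tendsto (f := fun η : ℝ => c ^ p * ((1 - θ) ^ (1 - p) * (A + η)
        + θ ^ (1 - p) * η ^ p) + η)
      have : Continuous (fun η : ℝ => c ^ p * ((1 - θ) ^ (1 - p) * (A + η)
        + θ ^ (1 - p) * η ^ p) + η) := by
        have h5 : Continuous (fun η : ℝ => η ^ p) :=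
          Real.continuous_rpow_const (by linarith)
        fun_prop
      exact this.continuousAt
    have hlim : c ^ p * ((1 - θ) ^ (1 - p) * (A + 0) + θ ^ (1 - p) * 0 ^ p) + 0 < B := by
      rw [Real.zero_rpow (by linarith)]
      simpa using hθ
    have h1 := hcont.eventually (gt_mem_nhds hlim)
    have h3 : ∀ᶠ θ : ℝ in 𝓝[>] 0, 0 < θ := eventually_mem_nhdsWithin
    obtain ⟨η, a, b⟩ := (h1.and h3).exists
    exact ⟨η, b, by linarith⟩
  obtain ⟨ι, _, F, G, W, hP⟩ := hG η hη0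
  obtain ⟨h, hh1, hh2, hh3⟩ := hMaj (Option (ι ⊕ ι)) (PU F W) p hp
  obtain ⟨hu1, hu2⟩ := hH (Option (ι ⊕ ι)) (PU F W)
  obtain ⟨hv1, hv2⟩ := hH (Option (ι ⊕ ι)) (PV G)
  have cF : Continuous (fun z : ℂ => |(F.eval z).re| ^ p) :=
    Continuous.rpow_const (continuous_abs.comp (Complex.continuous_re.comp F.continuous))
      (fun _ => Or.inr (by linarith))
  -- the bound of `h 0`
  have hmaj : h 0 ≤ (1 - θ) ^ (1 - p) * (A + η) + θ ^ (1 - p) * η ^ p := by
    refine hh3.trans ?_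
    have c1 : Continuous (fun z : ℂ => (Real.sqrt (∑ i, ((PU F W i).eval z).re ^ 2)) ^ p) := by
      refine Continuous.rpow_const (Real.continuous_sqrt.comp ?_) (fun _ => Or.inr (by linarith))
      refine continuous_finsetSum _ fun i _ => ?_
      exact (Complex.continuous_re.comp (PU F W i).continuous).pow 2
    have h5 : av (fun z => (Real.sqrt (∑ i, ((PU F W i).eval z).re ^ 2)) ^ p) ≤
        av (fun z => (1 - θ) ^ (1 - p) * |(F.eval z).re| ^ p + θ ^ (1 - p) * η ^ p) := by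
      refine av_mono c1 ((continuous_const.mul cF).add continuous_const) fun z hz => ?_
      refine le_trans ?_ (add_rpow hp (abs_nonneg _) hη0.le hθ0 hθ1)
      refine Real.rpow_le_rpow (Real.sqrt_nonneg _) ?_ (by linarith)
      rw [sum_PU]
      have h6 := hP.small z hz
      rw [Real.sqrt_le_left (by positivity)]
      have h7 : |(F.eval z).re| ^ 2 = (F.eval z).re ^ 2 := sq_abs _
      have h8 : 0 ≤ |(F.eval z).re| * η := by positivity
      nlinarith
    refine h5.trans ?_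
    rw [av_lin cF]
    have h9 := hP.avF
    have : 0 ≤ (1 - θ) ^ (1 - p) := Real.rpow_nonneg (by linarith) _
    gcongr
  refine ⟨2, EuclideanSpace ℝ (Option (ι ⊕ ι)), inferInstance, inferInstance, inferInstance,
    Metric.ball (0 : E2) 1, 0, vec (PU F W), vec (PV G), Metric.isOpen_ball,
    ⟨⟨0, Metric.mem_ball_self one_pos⟩, (convex_ball (0 : E2) 1).isPreconnected⟩,
    Metric.mem_ball_self one_pos, hu1 _, hv1 _, ?_, ?_, h, hh1, ?_,
    B - η - c ^ p * ((1 - θ) ^ (1 - p) * (A + η) + θ ^ (1 - p) * η ^ p), by linarith, ?_⟩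
  · intro x hx
    rw [hu2, hv2, sum_PV']
    have hz : ‖cz x‖ ≤ 1 := by
      have h1 : ‖x‖ < 1 := by simpa using hx
      have h2 : ‖cz x‖ = ‖x‖ := by
        rw [EuclideanSpace.norm_eq, Complex.norm_def, Complex.normSq_apply]
        simp [cz, Fin.sum_univ_two]
        ring_nf
      rw [h2]; exact h1.le
    exact (hP.grad _ hz).trans (sum_PU' F W _)
  · rw [norm_vec, norm_vec, sum_PU, sum_PV, cz_zero, hP.F0, hP.G0]
    simp only [Complex.ofReal_re]
    rw [Real.sqrt_sq_eq_abs]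
    refine hxy.trans ?_
    rw [← Real.sqrt_sq_eq_abs]
    exact Real.sqrt_le_sqrt (by have : 0 ≤ ∑ i, ‖(W i).eval 0‖ ^ 2 := by positivity
                                linarith)
  · intro x hx
    rw [norm_vec]
    exact hh2 x hx
  · intro g hg1 hg2
    have h1 := hMin G p g hp hg1 (by
      intro x hx
      have := hg2 x hx
      rwa [norm_vec, sum_PV, Real.sqrt_sq_eq_abs] at this)
    have h2 := hP.avG
    have h3 : c ^ p * h 0 ≤ c ^ p * ((1 - θ) ^ (1 - p) * (A + η) + θ ^ (1 - p) * η ^ p) := by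
      gcongr
    linarith

end Pool.Agent.TH280.DH.Fin
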