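import Pool.Agent.TH280.DH.Stm

set_option autoImplicit false

namespace Pool.Agent.TH280.DH.Glue

open Complex Polynomial Filter Topology Pool.Agent.TH280.DH

lemma X_mul_divX_eval (F : ℂ[X]) (w : ℂ) : w * (divX F).eval w = F.eval w - F.eval 0 := by
  have h := congrArg (Polynomial.eval w) (Polynomial.divX_mul_X_add F)
  simp only [eval_add, eval_mul, eval_X, eval_C] at h
  rw [← Polynomial.coeff_zero_eq_eval_zero]
  rw [← h]; ring

lemma T_eval (n L : ℕ) (Q F : ℂ[X]) (z : ℂ) :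
    (T n L Q F).eval z = Q.eval z * z ^ (n - L) * (divX F).eval (z ^ n) := by
  simp [T, eval_comp]

lemma conj_mul_self {z : ℂ} (hz : ‖z‖ = 1) : (starRingEnd ℂ z) * z = 1 := by
  rw [mul_comm, Complex.mul_conj, Complex.normSq_eq_norm_sq, hz]; simp

lemma T_eval_circle {n L : ℕ} (h : L ≤ n) (Q F : ℂ[X]) {z : ℂ} (hz : ‖z‖ = 1) :
    (T n L Q F).eval z = (starRingEnd ℂ z) ^ L * Q.eval z * (F.eval (z ^ n) - F.eval 0) := by
  rw [T_eval, ← X_mul_divX_eval F (z ^ n)]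
  have h1 : z ^ n = z ^ (n - L) * z ^ L := by rw [← pow_add, Nat.sub_add_cancel h]
  have h2 : (starRingEnd ℂ z) ^ L * z ^ L = 1 := by rw [← mul_pow, conj_mul_self hz, one_pow]
  calc Q.eval z * z ^ (n - L) * (divX F).eval (z ^ n)
      = ((starRingEnd ℂ z) ^ L * z ^ L) * (Q.eval z * z ^ (n - L) * (divX F).eval (z ^ n)) := by
        rw [h2, one_mul]
    _ = (starRingEnd ℂ z) ^ L * Q.eval z * ((z ^ (n - L) * z ^ L) * (divX F).eval (z ^ n)) := by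
        ring
    _ = _ := by rw [← h1]

lemma T_eval_zero {n L : ℕ} (h : L < n) (Q F : ℂ[X]) : (T n L Q F).eval 0 = 0 := by
  rw [T_eval, zero_pow (by omega)]; simp

lemma norm_T {n L : ℕ} (h : L ≤ n) (Q F : ℂ[X]) (hF : F.eval 0 = 0) {z : ℂ} (hz : ‖z‖ = 1) :
    ‖(T n L Q F).eval z‖ = ‖Q.eval z‖ * ‖F.eval (z ^ n)‖ := by
  rw [T_eval_circle h Q F hz, hF, sub_zero, norm_mul, norm_mul, norm_pow, RCLike.norm_conj, hz,
    one_pow, one_mul]

lemma av_congr {f g : ℂ → ℝ} (h : ∀ z : ℂ, ‖z‖ = 1 → f z = g z) : av f = av g := by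
  unfold av
  apply Real.circleAverage_congr_sphere
  intro z hz
  apply h
  simpa using hz

/-- all bounds at once on the closed disc -/
lemma exists_bound (P : ℂ[X]) : ∃ M : ℝ, 0 ≤ M ∧ ∀ z : ℂ, ‖z‖ ≤ 1 → ‖P.eval z‖ ≤ M := by
  have hK : IsCompact (Metric.closedBall (0 : ℂ) 1) := isCompact_closedBall _ _
  obtain ⟨M, hM⟩ := hK.exists_bound_of_continuousOn (f := fun z => P.eval z)
    P.continuous.continuousOn
  refine ⟨max M 0, le_max_right _ _, fun z hz => (hM z ?_).trans (le_max_left _ _)⟩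
  simpa using hz

theorem main (hE : S_EQ) (hC : S_CUT) (hG : S_GRAD) : S_GLUE := by
  intro p x₁ y₁ A₁ B₁ x₂ y₂ A₂ B₂ l hp hl hl1 hxy g₁ g₂ η hη
  have hη4 : 0 < η / 4 := by positivity
  obtain ⟨ι₁, _, F₁, G₁, W₁, h₁⟩ := g₁ (η / 8) (by positivity)
  obtain ⟨ι₂, _, F₂, G₂, W₂, h₂⟩ := g₂ (η / 8) (by positivity)
  obtain ⟨a1, _, ha1⟩ := exists_bound (derivative F₁)
  obtain ⟨a2, _, ha2⟩ := exists_bound (derivative F₂)
  obtain ⟨a3, _, ha3⟩ := exists_bound (derivative G₁)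
  obtain ⟨a4, _, ha4⟩ := exists_bound (derivative G₂)
  set M : ℝ := a1 + a2 + a3 + a4 with hM
  set ε : ℝ := η / 4 with hε
  have hMn : 0 ≤ M := by positivity
  obtain ⟨δ, hδ, hδ1, hδ2⟩ : ∃ δ : ℝ, 0 < δ ∧ 32 * M ^ 2 * δ ≤ ε ^ 2 ∧ δ ≤ η / 4 := by
    refine ⟨min (ε ^ 2 / (32 * M ^ 2 + 1)) (η / 4), by positivity, ?_, min_le_right _ _⟩
    have : min (ε ^ 2 / (32 * M ^ 2 + 1)) (η / 4) ≤ ε ^ 2 / (32 * M ^ 2 + 1) := min_le_left _ _
    calc 32 * M ^ 2 * min (ε ^ 2 / (32 * M ^ 2 + 1)) (η / 4)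
        ≤ 32 * M ^ 2 * (ε ^ 2 / (32 * M ^ 2 + 1)) := by gcongr
      _ = (32 * M ^ 2 / (32 * M ^ 2 + 1)) * ε ^ 2 := by ring
      _ ≤ 1 * ε ^ 2 := by
        gcongr
        rw [div_le_one (by positivity)]; linarith
      _ = ε ^ 2 := one_mul _
  obtain ⟨L, S, Q₁, Q₂, hS0, hQ, hlF, hlG⟩ := hC p x₁ x₂ y₁ y₂ l δ F₁ F₂ G₁ G₂ hp hl hl1 hδ hxy
  have hgr := hG S Q₁ Q₂ F₁ F₂ G₁ G₂ L ι₁ ι₂ W₁ W₂ M δ ε ε hη4 hη4 (by
      intro z hz
      refine ⟨(ha1 z hz).trans ?_, (ha2 z hz).trans ?_, (ha3 z hz).trans ?_,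
        (ha4 z hz).trans ?_⟩ <;> rw [hM] <;> linarith)
    (fun z hz => (hQ z hz).2.2) hδ hδ1 h₁.grad h₂.grad
  set x := l * x₁ + (1 - l) * x₂ with hx
  set y := l * y₁ + (1 - l) * y₂ with hy
  -- equidistribution
  have contS : ∀ P : ℂ[X], Continuous (fun q : ℂ × ℂ => P.eval q.1) := fun P =>
    P.continuous.comp continuous_fst
  have contW : ∀ P : ℂ[X], Continuous (fun q : ℂ × ℂ => P.eval q.2) := fun P =>
    P.continuous.comp continuous_snd
  have cont : ∀ (H₁ H₂ : ℂ[X]) (s z₁ z₂ : ℝ), Continuous (fun q : ℂ × ℂ =>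
      |(S.eval q.1 + (s : ℂ) + (starRingEnd ℂ q.1) ^ L * Q₁.eval q.1 * (H₁.eval q.2 - (z₁ : ℂ))
      + (starRingEnd ℂ q.1) ^ L * Q₂.eval q.1 * (H₂.eval q.2 - (z₂ : ℂ))).re| ^ p) := by
    intro H₁ H₂ s z₁ z₂
    have c1 : Continuous (fun q : ℂ × ℂ => (starRingEnd ℂ q.1) ^ L) :=
      (Complex.continuous_conj.comp continuous_fst).pow L
    refine Continuous.rpow_const (continuous_abs.comp (Complex.continuous_re.comp ?_))
      (fun _ => Or.inr (by linarith))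
    exact (((contS S).add continuous_const).add ((c1.mul (contS Q₁)).mul
      ((contW H₁).sub continuous_const))).add ((c1.mul (contS Q₂)).mul
      ((contW H₂).sub continuous_const))
  have eF := hE (fun z w => |(S.eval z + ((0 : ℝ) : ℂ)
    + (starRingEnd ℂ z) ^ L * Q₁.eval z * (F₁.eval w - (x₁ : ℂ))
    + (starRingEnd ℂ z) ^ L * Q₂.eval z * (F₂.eval w - (x₂ : ℂ))).re| ^ p) (cont F₁ F₂ 0 x₁ x₂)
  have eG := hE (fun z w => |(S.eval z + ((y - x : ℝ) : ℂ)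
    + (starRingEnd ℂ z) ^ L * Q₁.eval z * (G₁.eval w - (y₁ : ℂ))
    + (starRingEnd ℂ z) ^ L * Q₂.eval z * (G₂.eval w - (y₂ : ℂ))).re| ^ p)
    (cont G₁ G₂ (y - x) y₁ y₂)
  have eF' := eF.eventually (gt_mem_nhds (show _ < av (fun z => av (fun w => |(S.eval z
    + ((0 : ℝ) : ℂ) + (starRingEnd ℂ z) ^ L * Q₁.eval z * (F₁.eval w - (x₁ : ℂ))
    + (starRingEnd ℂ z) ^ L * Q₂.eval z * (F₂.eval w - (x₂ : ℂ))).re| ^ p)) + η / 4 by
      linarith))
  have eG' := eG.eventually (lt_mem_nhds (show av (fun z => av (fun w => |(S.eval z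
    + ((y - x : ℝ) : ℂ) + (starRingEnd ℂ z) ^ L * Q₁.eval z * (G₁.eval w - (y₁ : ℂ))
    + (starRingEnd ℂ z) ^ L * Q₂.eval z * (G₂.eval w - (y₂ : ℂ))).re| ^ p)) - η / 4 < _ by
      linarith))
  obtain ⟨n, hn1, ⟨n', hn'1, hgrad⟩, hnF, hnG⟩ :=
    ((eventually_gt_atTop L).and (hgr.and (eF'.and eG'))).exists
  have hLn : L ≤ n := hn1.le
  refine ⟨ι₁ ⊕ (ι₂ ⊕ Bool), inferInstance, S + T n L Q₁ F₁ + T n L Q₂ F₂,
    S + C ((y - x : ℝ) : ℂ) + T n L Q₁ G₁ + T n L Q₂ G₂,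
    Sum.elim (fun i => T n L Q₁ (W₁ i)) (Sum.elim (fun i => T n L Q₂ (W₂ i))
      (fun b => if b then C (ε : ℂ) * X ^ n else C (ε : ℂ) * X ^ n')), ?_⟩
  have hn0 : n ≠ 0 := by omega
  have hn'0 : n' ≠ 0 := by omega
  constructor
  · simp only [eval_add, T_eval_zero hn1, hS0]; simp [hx]
  · simp only [eval_add, T_eval_zero hn1, hS0, eval_C]; push_cast; ring
  · rintro (i | i | b)
    · simp [T_eval_zero hn1]
    · simp [T_eval_zero hn1]
    · cases b <;> simp [hn0, hn'0]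
  · intro z hz
    have h := hgrad z hz
    simp only [Fintype.sum_sum_type, Sum.elim_inl, Sum.elim_inr, Fintype.sum_bool, if_true,
      Bool.false_eq_true, if_false]
    have e1 : ‖(derivative (C (ε : ℂ) * X ^ n)).eval z‖ = ε * n * ‖z‖ ^ (n - 1) := by
      simp only [derivative_C_mul_X_pow, eval_mul, eval_C, eval_pow, eval_X, norm_mul, norm_pow,
        Complex.norm_natCast, Complex.norm_real, Real.norm_eq_abs, abs_of_pos hη4]
    have e2 : ‖(derivative (C (ε : ℂ) * X ^ n')).eval z‖ = ε * n' * ‖z‖ ^ (n' - 1) := by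
      simp only [derivative_C_mul_X_pow, eval_mul, eval_C, eval_pow, eval_X, norm_mul, norm_pow,
        Complex.norm_natCast, Complex.norm_real, Real.norm_eq_abs, abs_of_pos hη4]
    rw [e1, e2]
    have e3 : derivative (S + C ((y - x : ℝ) : ℂ) + T n L Q₁ G₁ + T n L Q₂ G₂)
        = derivative (S + T n L Q₁ G₁ + T n L Q₂ G₂) := by
      simp only [derivative_add, derivative_C, add_zero]
    rw [e3]
    linarith
  · intro z hz
    have hzn : ‖z ^ n‖ = 1 := by rw [norm_pow, hz, one_pow]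
    simp only [Fintype.sum_sum_type, Sum.elim_inl, Sum.elim_inr, Fintype.sum_bool, if_true,
      Bool.false_eq_true, if_false]
    have s1 : ∑ i, ‖(T n L Q₁ (W₁ i)).eval z‖ ^ 2 ≤ 4 * (η / 8) ^ 2 := by
      calc ∑ i, ‖(T n L Q₁ (W₁ i)).eval z‖ ^ 2
          = ‖Q₁.eval z‖ ^ 2 * ∑ i, ‖(W₁ i).eval (z ^ n)‖ ^ 2 := by
            rw [Finset.mul_sum]
            refine Finset.sum_congr rfl fun i _ => ?_
            rw [norm_T hLn Q₁ (W₁ i) (h₁.W0 i) hz, mul_pow]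
        _ ≤ 2 ^ 2 * (η / 8) ^ 2 := by
            gcongr
            · exact (hQ z hz).1
            · exact h₁.small _ hzn
        _ = _ := by norm_num
    have s2 : ∑ i, ‖(T n L Q₂ (W₂ i)).eval z‖ ^ 2 ≤ 4 * (η / 8) ^ 2 := by
      calc ∑ i, ‖(T n L Q₂ (W₂ i)).eval z‖ ^ 2
          = ‖Q₂.eval z‖ ^ 2 * ∑ i, ‖(W₂ i).eval (z ^ n)‖ ^ 2 := by
            rw [Finset.mul_sum]
            refine Finset.sum_congr rfl fun i _ => ?_
            rw [norm_T hLn Q₂ (W₂ i) (h₂.W0 i) hz, mul_pow]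
        _ ≤ 2 ^ 2 * (η / 8) ^ 2 := by
            gcongr
            · exact (hQ z hz).2.1
            · exact h₂.small _ hzn
        _ = _ := by norm_num
    have e1 : ∀ m : ℕ, ‖(C (ε : ℂ) * X ^ m : ℂ[X]).eval z‖ = ε := by
      intro m
      simp only [eval_mul, eval_C, eval_pow, eval_X, norm_mul, norm_pow,
        Complex.norm_real, Real.norm_eq_abs, abs_of_pos hη4, hz, one_pow, mul_one]
    rw [e1, e1]
    have : ε ^ 2 = η ^ 2 / 16 := by rw [hε]; ring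
    nlinarith
  · have e : av (fun z => |((S + T n L Q₁ F₁ + T n L Q₂ F₂).eval z).re| ^ p)
        = av (fun z => |(S.eval z + ((0 : ℝ) : ℂ)
          + (starRingEnd ℂ z) ^ L * Q₁.eval z * (F₁.eval (z ^ n) - (x₁ : ℂ))
          + (starRingEnd ℂ z) ^ L * Q₂.eval z * (F₂.eval (z ^ n) - (x₂ : ℂ))).re| ^ p) := by
      refine av_congr fun z hz => ?_
      simp only [eval_add]
      rw [T_eval_circle hLn Q₁ F₁ hz, T_eval_circle hLn Q₂ F₂ hz, h₁.F0, h₂.F0]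
      simp
    rw [e]
    have := h₁.avF
    have := h₂.avF
    unfold lim2 at hlF
    nlinarith
  · have e : av (fun z => |((S + C ((y - x : ℝ) : ℂ) + T n L Q₁ G₁ + T n L Q₂ G₂).eval z).re| ^ p)
        = av (fun z => |(S.eval z + ((y - x : ℝ) : ℂ)
          + (starRingEnd ℂ z) ^ L * Q₁.eval z * (G₁.eval (z ^ n) - (y₁ : ℂ))
          + (starRingEnd ℂ z) ^ L * Q₂.eval z * (G₂.eval (z ^ n) - (y₂ : ℂ))).re| ^ p) := by
      refine av_congr fun z hz => ?_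
      simp only [eval_add, eval_C]
      rw [T_eval_circle hLn Q₁ G₁ hz, T_eval_circle hLn Q₂ G₂ hz, h₁.G0, h₂.G0]
    rw [e]
    have := h₁.avG
    have := h₂.avG
    unfold lim2 at hlG
    nlinarith

end Pool.Agent.TH280.DH.Glue
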