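import Mathlib

/-! MP_540347_an (S04695), helper280: definitions and statements of the pieces.

All harmonic functions are real parts of complex polynomials on the unit disc. -/

set_option autoImplicit false

namespace Pool.Agent.TH280.DH

open Complex Polynomial Filter Topology

/-- average over the unit circle -/
noncomputable def av (f : ℂ → ℝ) : ℝ := Real.circleAverage f 0 1

/-- `Re F` and `Re G` are harmonic on the disc, `G` is differentially subordinate to `(F, W)`,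
`W` is small, and the `p`-th means are controlled. -/
structure Pair (p x y A B η : ℝ) (ι : Type) [Fintype ι] (F G : ℂ[X]) (W : ι → ℂ[X]) : Prop where
  F0 : F.eval 0 = (x : ℂ)
  G0 : G.eval 0 = (y : ℂ)
  W0 : ∀ i, (W i).eval 0 = 0
  grad : ∀ z : ℂ, ‖z‖ ≤ 1 → ‖(derivative G).eval z‖ ^ 2 ≤
    ‖(derivative F).eval z‖ ^ 2 + ∑ i, ‖(derivative (W i)).eval z‖ ^ 2
  small : ∀ z : ℂ, ‖z‖ = 1 → ∑ i, ‖(W i).eval z‖ ^ 2 ≤ η ^ 2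
  avF : av (fun z => |(F.eval z).re| ^ p) ≤ A + η
  avG : B - η ≤ av (fun z => |(G.eval z).re| ^ p)

def Good (p x y A B : ℝ) : Prop :=
  ∀ η : ℝ, 0 < η → ∃ (ι : Type) (_ : Fintype ι) (F G : ℂ[X]) (W : ι → ℂ[X]),
    Pair p x y A B η ι F G W

/-- the lifted polynomial `z ^ (-L) Q(z) (F(z ^ n) - F(0))` -/
noncomputable def T (n L : ℕ) (Q F : ℂ[X]) : ℂ[X] := Q * X ^ (n - L) * (divX F).comp (X ^ n)

/-! ### the closure properties -/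

def S_CONST : Prop := ∀ p x y : ℝ, 1 < p → Good p x y (|x| ^ p) (|y| ^ p)

def S_SCALE : Prop := ∀ p t x y A B : ℝ, 1 < p → Good p x y A B →
  Good p (t * x) (t * y) (|t| ^ p * A) (|t| ^ p * B)

def S_FLIP : Prop := ∀ p x y A B : ℝ, 1 < p → Good p x y A B → Good p x (-y) A B

def S_GLUE : Prop := ∀ p x₁ y₁ A₁ B₁ x₂ y₂ A₂ B₂ l : ℝ, 1 < p → 0 < l → l < 1 →
  y₁ - y₂ = x₁ - x₂ → Good p x₁ y₁ A₁ B₁ → Good p x₂ y₂ A₂ B₂ →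
  Good p (l * x₁ + (1 - l) * x₂) (l * y₁ + (1 - l) * y₂)
    (l * A₁ + (1 - l) * A₂) (l * B₁ + (1 - l) * B₂)

/-! ### pieces of the glueing -/

/-- equidistribution of `(z, z ^ n)` -/
def S_EQ : Prop := ∀ Ψ : ℂ → ℂ → ℝ, Continuous (fun q : ℂ × ℂ => Ψ q.1 q.2) →
  Tendsto (fun n : ℕ => av (fun z => Ψ z (z ^ n))) atTop (𝓝 (av (fun z => av (fun w => Ψ z w))))

/-- the limit function -/
noncomputable def lim2 (p : ℝ) (L : ℕ) (S Q₁ Q₂ F₁ F₂ : ℂ[X]) (s x₁ x₂ : ℝ) : ℝ :=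
  av (fun z => av (fun w => |(S.eval z + (s : ℂ)
    + (starRingEnd ℂ z) ^ L * Q₁.eval z * (F₁.eval w - (x₁ : ℂ))
    + (starRingEnd ℂ z) ^ L * Q₂.eval z * (F₂.eval w - (x₂ : ℂ))).re| ^ p))

/-- cutoffs -/
def S_CUT : Prop := ∀ (p x₁ x₂ y₁ y₂ l δ : ℝ) (F₁ F₂ G₁ G₂ : ℂ[X]), 1 < p → 0 < l → l < 1 →
  0 < δ → y₁ - y₂ = x₁ - x₂ →
  ∃ (L : ℕ) (S Q₁ Q₂ : ℂ[X]), S.eval 0 = ((l * x₁ + (1 - l) * x₂ : ℝ) : ℂ) ∧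
    (∀ z : ℂ, ‖z‖ = 1 → ‖Q₁.eval z‖ ≤ 2 ∧ ‖Q₂.eval z‖ ≤ 2 ∧ ‖Q₁.eval z * Q₂.eval z‖ ≤ δ) ∧
    lim2 p L S Q₁ Q₂ F₁ F₂ 0 x₁ x₂ ≤ l * av (fun z => |(F₁.eval z).re| ^ p)
      + (1 - l) * av (fun z => |(F₂.eval z).re| ^ p) + δ ∧
    l * av (fun z => |(G₁.eval z).re| ^ p) + (1 - l) * av (fun z => |(G₂.eval z).re| ^ p) - δ
      ≤ lim2 p L S Q₁ Q₂ G₁ G₂ ((l * y₁ + (1 - l) * y₂) - (l * x₁ + (1 - l) * x₂)) y₁ y₂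

/-- the gradient inequality for the glued polynomials -/
def S_GRAD : Prop := ∀ (S Q₁ Q₂ F₁ F₂ G₁ G₂ : ℂ[X]) (L : ℕ) (ι₁ ι₂ : Type) [Fintype ι₁]
  [Fintype ι₂] (W₁ : ι₁ → ℂ[X]) (W₂ : ι₂ → ℂ[X]) (M δ ε α : ℝ), 0 < ε → 0 < α →
  (∀ z : ℂ, ‖z‖ ≤ 1 → ‖(derivative F₁).eval z‖ ≤ M ∧ ‖(derivative F₂).eval z‖ ≤ M ∧
    ‖(derivative G₁).eval z‖ ≤ M ∧ ‖(derivative G₂).eval z‖ ≤ M) →
  (∀ z : ℂ, ‖z‖ = 1 → ‖Q₁.eval z * Q₂.eval z‖ ≤ δ) → 0 < δ → 32 * M ^ 2 * δ ≤ ε ^ 2 →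
  (∀ z : ℂ, ‖z‖ ≤ 1 → ‖(derivative G₁).eval z‖ ^ 2 ≤
    ‖(derivative F₁).eval z‖ ^ 2 + ∑ i, ‖(derivative (W₁ i)).eval z‖ ^ 2) →
  (∀ z : ℂ, ‖z‖ ≤ 1 → ‖(derivative G₂).eval z‖ ^ 2 ≤
    ‖(derivative F₂).eval z‖ ^ 2 + ∑ i, ‖(derivative (W₂ i)).eval z‖ ^ 2) →
  ∀ᶠ n : ℕ in atTop, ∃ n' : ℕ, 1 ≤ n' ∧ ∀ z : ℂ, ‖z‖ ≤ 1 →
    ‖(derivative (S + T n L Q₁ G₁ + T n L Q₂ G₂)).eval z‖ ^ 2 ≤
      ‖(derivative (S + T n L Q₁ F₁ + T n L Q₂ F₂)).eval z‖ ^ 2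
      + ∑ i, ‖(derivative (T n L Q₁ (W₁ i))).eval z‖ ^ 2
      + ∑ i, ‖(derivative (T n L Q₂ (W₂ i))).eval z‖ ^ 2
      + (ε * n * ‖z‖ ^ (n - 1)) ^ 2 + (α * n' * ‖z‖ ^ (n' - 1)) ^ 2

/-- Burkholder's argument -/
def S_BURK : Prop := ∀ (p c : ℝ) (Gd : ℝ → ℝ → ℝ → ℝ → Prop), 1 < p → 0 ≤ c →
  c < max p (p / (p - 1)) - 1 →
  (∀ x y : ℝ, Gd x y (|x| ^ p) (|y| ^ p)) →
  (∀ t x y A B : ℝ, Gd x y A B → Gd (t * x) (t * y) (|t| ^ p * A) (|t| ^ p * B)) →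
  (∀ x y A B : ℝ, Gd x y A B → Gd x (-y) A B) →
  (∀ x₁ y₁ A₁ B₁ x₂ y₂ A₂ B₂ l : ℝ, 0 < l → l < 1 → y₁ - y₂ = x₁ - x₂ →
    Gd x₁ y₁ A₁ B₁ → Gd x₂ y₂ A₂ B₂ →
    Gd (l * x₁ + (1 - l) * x₂) (l * y₁ + (1 - l) * y₂)
      (l * A₁ + (1 - l) * A₂) (l * B₁ + (1 - l) * B₂)) →
  ∃ x y A B : ℝ, Gd x y A B ∧ |y| ≤ |x| ∧ c ^ p * A < B


/-! ### pieces of the cutoffs -/

/-- a cutoff on the circle with prescribed mean and small transition -/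
def S_PSI : Prop := ∀ l δ : ℝ, 0 < l → l < 1 → 0 < δ → ∃ ψ : ℂ → ℝ, Continuous ψ ∧
  (∀ z, 0 ≤ ψ z ∧ ψ z ≤ 1) ∧ av ψ = l ∧
  av (fun z => Set.indicator {z : ℂ | 0 < ψ z ∧ ψ z < 1} (fun _ => (1 : ℝ)) z) ≤ δ

/-- trigonometric approximation on the circle -/
def S_TRIG : Prop :=
  (∀ (φ₁ φ₂ : ℂ → ℝ) (δ : ℝ), Continuous φ₁ → Continuous φ₂ → 0 < δ →
    ∃ (L : ℕ) (Q₁ Q₂ : ℂ[X]), ∀ z : ℂ, ‖z‖ = 1 →
      ‖(starRingEnd ℂ z) ^ L * Q₁.eval z - (φ₁ z : ℂ)‖ ≤ δ ∧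
      ‖(starRingEnd ℂ z) ^ L * Q₂.eval z - (φ₂ z : ℂ)‖ ≤ δ) ∧
  (∀ (φ : ℂ → ℝ) (δ : ℝ), Continuous φ → 0 < δ →
    ∃ S : ℂ[X], S.eval 0 = ((av φ : ℝ) : ℂ) ∧ ∀ z : ℂ, ‖z‖ = 1 → |(S.eval z).re - φ z| ≤ δ)

/-! ### the end -/

/-- `ℝ²` -/
abbrev E2 := EuclideanSpace ℝ (Fin 2)

/-- the point of the complex plane -/
noncomputable def cz (x : E2) : ℂ := (x 0 : ℂ) + (x 1 : ℂ) * Complex.I

/-- least harmonic majorant, upper bound: for a vector of polynomials, `‖u‖ ^ p` has a harmonic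
majorant on the disc with value at `0` equal to the mean over the circle -/
def S_MAJ : Prop := ∀ (ι : Type) [Fintype ι] (P : ι → ℂ[X]) (p : ℝ), 1 < p →
  ∃ h : E2 → ℝ, InnerProductSpace.HarmonicOnNhd h (Metric.ball (0 : E2) 1) ∧
    (∀ x ∈ Metric.ball (0 : E2) 1, (Real.sqrt (∑ i, ((P i).eval (cz x)).re ^ 2)) ^ p ≤ h x) ∧
    h 0 ≤ av (fun z => (Real.sqrt (∑ i, ((P i).eval z).re ^ 2)) ^ p)

/-- lower bound for every harmonic majorant of `|Re G| ^ p` -/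
def S_MIN : Prop := ∀ (G : ℂ[X]) (p : ℝ) (g : E2 → ℝ), 1 < p →
  InnerProductSpace.HarmonicOnNhd g (Metric.ball (0 : E2) 1) →
  (∀ x ∈ Metric.ball (0 : E2) 1, |(G.eval (cz x)).re| ^ p ≤ g x) →
  av (fun z => |(G.eval z).re| ^ p) ≤ g 0

/-- the vector valued harmonic function with components `Re P i` -/
noncomputable def vec {ι : Type} [Fintype ι] (P : ι → ℂ[X]) (x : E2) : EuclideanSpace ℝ ι :=
  WithLp.toLp 2 fun i => ((P i).eval (cz x)).re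

/-- it is harmonic and the square of the length of its gradient is the sum of `|P i'|²` -/
def S_HARM : Prop := ∀ (ι : Type) [Fintype ι] (P : ι → ℂ[X]),
  (∀ D : Set E2, InnerProductSpace.HarmonicOnNhd (vec P) D) ∧
  ∀ x : E2, ∑ i : Fin 2, ‖fderiv ℝ (vec P) x (EuclideanSpace.single i (1 : ℝ))‖ ^ 2 =
    ∑ i, ‖(derivative (P i)).eval (cz x)‖ ^ 2

end Pool.Agent.TH280.DH
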